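import Pool.Agent.Y731.FG.Stm
import Pool.Agent.W603.LV.Loc

/-!
# FG-WR: Wronskians in the ultraproduct
-/

set_option autoImplicit false
set_option linter.unusedSectionVars false
set_option linter.unusedVariables false

namespace Pool.Agent.Y852.FG

open FF Filter Pool.Agent.W603.LV Pool.Agent.W603.PV Pool.Agent.W603.CZ Pool.Agent.Y731.FG
open scoped Classical

section loc

variable {k K : Type*} [Field k] [Field K] [Algebra k K] [CharZero k] [IsFF k K] [IsAlgClosed k]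

/-- the order of a Wronskian at a place -/
theorem ord_wr (P : Place k K) {D : Derivation k K K} (hD : D ≠ 0) {n : ℕ} (f : Fin n → K)
    (m : ℤ) (hf : ∀ j, Ge P m (f j)) (hW : wr D f ≠ 0) :
    tri n * vo P D + n * m ≤ P.ord (wr D f) := by
  set π := unif P with hπd
  have hπ : P.ord π = 1 := ord_unif P
  have hπ0 : π ≠ 0 := by
    intro h
    rw [h, P.ord_zero] at hπ; omega
  have hu0 : D π ≠ 0 := der_pi_ne_zero hD P hπ
  set u := D π with hu
  set δ : Derivation k K K := u⁻¹ • D with hδd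
  have hδ : δ π = 1 := by
    rw [hδd, Derivation.coe_smul, Pi.smul_apply, smul_eq_mul, ← hu, inv_mul_cancel₀ hu0]
  have hDδ : D = u • δ := by
    rw [hδd, smul_smul, mul_inv_cancel₀ hu0, one_smul]
  set c := π ^ m with hc
  have hc0 : c ≠ 0 := zpow_ne_zero _ hπ0
  have hcord : P.ord c = m := by rw [hc, P.ord_zpow, hπ, mul_one]
  set g : Fin n → K := fun l => f l / c with hg
  have hfg : f = fun l => c * g l := by
    funext l
    simp only [hg]; field_simp
  have h2 : wr D f = (∏ r : Fin n, u ^ (r : ℕ) * c) * wr δ g := by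
    rw [hfg]
    conv_lhs => rw [hDδ]
    exact wr_change δ u c g
  have hWg : wr δ g ≠ 0 := by
    intro h0
    rw [h0, mul_zero] at h2
    exact hW h2
  have hprod0 : (∏ r : Fin n, u ^ (r : ℕ) * c) ≠ 0 :=
    Finset.prod_ne_zero_iff.2 fun r _ => mul_ne_zero (pow_ne_zero _ hu0) hc0
  have hprod : P.ord (∏ r : Fin n, u ^ (r : ℕ) * c) = tri n * vo P D + n * m := by
    have h3 : ∀ s : Finset (Fin n), P.ord (∏ r ∈ s, u ^ (r : ℕ) * c) =
        ∑ r ∈ s, (((r : ℕ) : ℤ) * vo P D + m) := by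
      intro s
      induction s using Finset.induction_on with
      | empty => simpa using P.ord_one
      | insert a s ha ih =>
        rw [Finset.prod_insert ha, Finset.sum_insert ha, P.ord_mul
          (mul_ne_zero (pow_ne_zero _ hu0) hc0)
          (Finset.prod_ne_zero_iff.2 fun r _ => mul_ne_zero (pow_ne_zero _ hu0) hc0), ih,
          P.ord_mul (pow_ne_zero _ hu0) hc0, P.ord_pow, hcord]
        rfl
    rw [h3, Finset.sum_add_distrib, ← Finset.sum_mul]
    simp [tri]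
  have hgG : ∀ l, Ge P ((0 : ℕ) : ℤ) (g l) := by
    intro l
    refine Ge.of_mul' (h := c) (m := m) hc0 hcord ?_
    rw [show c * g l = f l from (congrFun hfg l).symm]
    simpa using hf l
  have hL : Ge P 0 (wr δ g) := by
    unfold wr
    refine ge_det P _ _ (fun i r => 0) (fun i r => ?_) (fun σ => by simp)
    have h := ge_iter P hπ hδ (hgG i) r
    rw [Nat.zero_sub, Nat.cast_zero] at h
    exact h
  have hLo := hL.resolve_left hWg
  rw [h2, P.ord_mul hprod0 hWg, hprod]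
  linarith

theorem tri_nonneg (n : ℕ) : 0 ≤ tri n := Finset.sum_nonneg fun _ _ => by positivity

theorem tri_le (n : ℕ) : tri n ≤ (n ^ 2 : ℕ) := by
  unfold tri
  calc ∑ r : Fin n, ((r : ℕ) : ℤ) ≤ ∑ _r : Fin n, (n : ℤ) :=
        Finset.sum_le_sum fun r _ => by exact_mod_cast r.2.le
    _ = (n ^ 2 : ℕ) := by
        rw [Finset.sum_const, Finset.card_univ, Fintype.card_fin, nsmul_eq_mul]
        push_cast
        ring

end loc

variable {I : Type} {𝒰 : Ultrafilter I} {k F : Type} [Field k] [IsAlgClosed k] [CharZero k]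
  [Field F] {L : I → Type} [∀ i, Field (L i)] [∀ i, Algebra k (L i)] [∀ i, Algebra F (L i)]
  [∀ i, IsFF k (L i)]

theorem iter_um (D : ∀ i, Derivation k (L i) (L i)) (r : ℕ) (z : ∀ i, L i) :
    (⇑(uD (𝒰 := 𝒰) D))^[r] (um 𝒰 z) = um 𝒰 (fun i => (⇑(D i))^[r] (z i)) := by
  induction r with
  | zero => rfl
  | succ r ih =>
    rw [Function.iterate_succ_apply', ih, uD_um]
    congr 1
    funext i
    rw [Function.iterate_succ_apply']

theorem det_um {n : ℕ} (M : ∀ i, Matrix (Fin n) (Fin n) (L i)) :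
    (Matrix.of fun a b => um 𝒰 (fun i => M i a b)).det = um 𝒰 (fun i => (M i).det) := by
  have h1 := RingHom.map_det (Ideal.Quotient.mk (ui 𝒰 L))
    (Matrix.of fun a b => (fun i => M i a b : ∀ i, L i))
  have h2 : (Matrix.of fun a b => (fun i => M i a b : ∀ i, L i)).det = fun i => (M i).det := by
    funext i
    exact RingHom.map_det (Pi.evalRingHom L i) (Matrix.of fun a b => (fun i => M i a b : ∀ i, L i))
  rw [h2] at h1
  exact h1.symm

theorem wr_um (D : ∀ i, Derivation k (L i) (L i)) {n : ℕ} (z : Fin n → ∀ i, L i) :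
    wr (uD (𝒰 := 𝒰) D) (fun j => um 𝒰 (z j)) = um 𝒰 (fun i => wr (D i) (fun j => z j i)) := by
  unfold wr
  rw [← det_um]
  congr 1
  ext a b
  exact iter_um D b (z a)

theorem wr_rep (D : ∀ i, Derivation k (L i) (L i)) {n : ℕ} (f : Fin n → UL 𝒰 L) :
    wr (uD (𝒰 := 𝒰) D) f = um 𝒰 (fun i => wr (D i) (fun j => rep (f j) i)) := by
  rw [← wr_um D (fun j => rep (f j))]
  congr 1
  funext j
  rw [um_rep]

/-- for finitely many properties, one holds for almost all indices -/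
theorem ev_exists {n : ℕ} {p : Fin n → I → Prop} (h : ∀ᶠ i in (𝒰 : Filter I), ∃ j, p j i) :
    ∃ j, ∀ᶠ i in (𝒰 : Filter I), p j i := by
  by_contra hc
  push Not at hc
  have h2 : ∀ᶠ i in (𝒰 : Filter I), ∀ j, ¬ p j i := eventually_all.2 hc
  obtain ⟨i, ⟨j, hj⟩, hi⟩ := (h.and h2).exists
  exact hi j hj

theorem um_const_mem (c : I → k) : um 𝒰 (fun i => algebraMap k (L i) (c i)) ∈ K0 𝒰 k L := ⟨c, rfl⟩

/-- independence over the constants passes to almost all fields -/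
theorem indep_ev {n : ℕ} {f : Fin n → UL 𝒰 L} (hf : LinearIndependent (K0 𝒰 k L) f) :
    ∀ᶠ i in (𝒰 : Filter I), LinearIndependent k (fun j => rep (f j) i) := by
  by_contra hc
  have h1 : ∀ᶠ i in (𝒰 : Filter I), ¬ LinearIndependent k (fun j => rep (f j) i) :=
    Ultrafilter.eventually_not.2 hc
  have h2 : ∀ i, ∃ c : Fin n → k, ¬ LinearIndependent k (fun j => rep (f j) i) →
      (∑ j, c j • rep (f j) i = 0 ∧ ∃ j, c j ≠ 0) := by
    intro i
    by_cases h : LinearIndependent k (fun j => rep (f j) i)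
    · exact ⟨0, fun h' => absurd h h'⟩
    · obtain ⟨c, hc1, hc2⟩ := Fintype.not_linearIndependent_iff.1 h
      exact ⟨c, fun _ => ⟨hc1, hc2⟩⟩
  choose c hc2 using h2
  obtain ⟨j0, hj0⟩ := ev_exists (𝒰 := 𝒰) (p := fun j i => c i j ≠ 0) (by
    filter_upwards [h1] with i hi
    exact (hc2 i hi).2)
  have h3 : ∑ j, (⟨_, um_const_mem (fun i => c i j)⟩ : K0 𝒰 k L) • f j = 0 := by
    have h4 : ∀ j, (⟨_, um_const_mem (fun i => c i j)⟩ : K0 𝒰 k L) • f j =
        um 𝒰 (fun i => algebraMap k (L i) (c i j) * rep (f j) i) := by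
      intro j
      rw [um_mul, um_rep]
      rfl
    rw [Finset.sum_congr rfl fun j _ => h4 j, ← um_sum, um_zero_iff]
    filter_upwards [h1] with i hi
    rw [← (hc2 i hi).1]
    exact Finset.sum_congr rfl fun j _ => (Algebra.smul_def _ _).symm
  have h5 := Fintype.linearIndependent_iff.1 hf _ h3 j0
  have h6 : um 𝒰 (fun i => algebraMap k (L i) (c i j0)) = 0 := congrArg Subtype.val h5
  rw [um_zero_iff] at h6
  obtain ⟨i, hi1, hi2⟩ := (hj0.and h6).exists
  exact hi1 ((map_eq_zero _).1 hi2)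

theorem wr_ne (Δ : Dt 𝒰 k F L) {n : ℕ} {f : Fin n → UL 𝒰 L}
    (hf : LinearIndependent (K0 𝒰 k L) f) : wr (uD Δ.D) f ≠ 0 := by
  rw [wr_rep, um_ne_iff]
  filter_upwards [indep_ev hf, Δ.D_ne] with i h1 h2
  exact wr_ne_zero h2 _ h1

/-- derivations kill the constants -/
theorem uD_K0 (D : ∀ i, Derivation k (L i) (L i)) {c : UL 𝒰 L} (hc : c ∈ K0 𝒰 k L) :
    uD D c = 0 := by
  obtain ⟨c, rfl⟩ := hc
  rw [uD_um, um_zero_iff]
  exact Eventually.of_forall fun i => (D i).map_algebraMap _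

theorem iter_K0 (D : ∀ i, Derivation k (L i) (L i)) {c : UL 𝒰 L} (hc : c ∈ K0 𝒰 k L)
    (x : UL 𝒰 L) (r : ℕ) : (⇑(uD (𝒰 := 𝒰) D))^[r] (c * x) = c * (⇑(uD (𝒰 := 𝒰) D))^[r] x := by
  induction r with
  | zero => rfl
  | succ r ih =>
    have h1 := (uD (𝒰 := 𝒰) D).leibniz c ((⇑(uD (𝒰 := 𝒰) D))^[r] x)
    rw [uD_K0 D hc, smul_eq_mul, smul_eq_mul, mul_zero, add_zero] at h1
    rw [Function.iterate_succ_apply', ih, h1, Function.iterate_succ_apply']

/-- change of the basis over the constants -/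
theorem wr_lin (D : ∀ i, Derivation k (L i) (L i)) {n : ℕ} (A : Matrix (Fin n) (Fin n) (K0 𝒰 k L))
    (g : Fin n → UL 𝒰 L) :
    wr (uD (𝒰 := 𝒰) D) (fun j => ∑ l, (A j l : UL 𝒰 L) * g l) =
      (A.det : UL 𝒰 L) * wr (uD (𝒰 := 𝒰) D) g := by
  have h1 : (A.det : UL 𝒰 L) = (Matrix.of fun j l => (A j l : UL 𝒰 L)).det :=
    RingHom.map_det (K0 𝒰 k L).subtype A
  unfold wr
  rw [h1, ← Matrix.det_mul]
  congr 1
  ext j r
  rw [Matrix.mul_apply]
  change (⇑(uD (𝒰 := 𝒰) D))^[(r : ℕ)] (∑ l, (A j l : UL 𝒰 L) * g l) =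
    ∑ l, (A j l : UL 𝒰 L) * (⇑(uD (𝒰 := 𝒰) D))^[(r : ℕ)] (g l)
  rw [iter_sum]
  exact Finset.sum_congr rfl fun l _ => iter_K0 D (A j l).2 _ _

theorem oo_K0 {c : UL 𝒰 L} (hc : c ∈ K0 𝒰 k L) (hc0 : c ≠ 0) :
    ∀ᶠ ω in EV 𝒰 k L, oo c ω = 0 := by
  obtain ⟨c, rfl⟩ := hc
  have h1 := ev_iff.1 (oo_um (𝒰 := 𝒰) (k := k) (fun i => algebraMap k (L i) (c i)))
  rw [ev_iff]
  filter_upwards [h1, um_ne_iff.1 hc0] with i h2 h3 P
  rw [h2 P]
  exact P.ord_const fun h => h3 (by rw [h, map_zero])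

/-- **Wronskians in the ultraproduct.** -/
theorem wrS (Δ : Dt 𝒰 k F L) : S_WR Δ := by
  refine ⟨fun n f hf => wr_ne Δ hf, ?_, ?_⟩
  · intro n f g hf hg hfg
    have h1 : ∀ j, ∃ A : Fin n → K0 𝒰 k L, ∑ l, A l • g l = f j := by
      intro j
      have h2 : f j ∈ Submodule.span (K0 𝒰 k L) (Set.range g) := by
        rw [← hfg]
        exact Submodule.subset_span ⟨j, rfl⟩
      exact (Submodule.mem_span_range_iff_exists_fun _).1 h2
    choose A hA using h1
    have h3 : f = fun j => ∑ l, ((Matrix.of A) j l : UL 𝒰 L) * g l := by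
      funext j
      rw [← hA j]
      rfl
    have h4 : wr (uD Δ.D) f = ((Matrix.of A).det : UL 𝒰 L) * wr (uD Δ.D) g := by
      conv_lhs => rw [h3]
      exact wr_lin Δ.D (Matrix.of A) g
    have h5 := wr_ne Δ hf
    have h6 := wr_ne Δ hg
    have h7 : ((Matrix.of A).det : UL 𝒰 L) ≠ 0 := by
      intro h
      rw [h, zero_mul] at h4
      exact h5 h4
    filter_upwards [oo_mul (k := k) h7 h6, oo_K0 (Matrix.of A).det.2 h7] with ω h8 h9
    rw [h4, h8, h9, zero_add]
  · intro n f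
    refine ⟨_, Δ.vo_bd.smul (n ^ 2), ?_⟩
    by_cases hW : wr (uD Δ.D) f = 0
    · exact Eventually.of_forall fun ω m _ => Or.inl hW
    have h1 : ∀ᶠ i in (𝒰 : Filter I), ∀ j, f j = 0 → rep (f j) i = 0 := by
      refine eventually_all.2 fun j => ?_
      by_cases hj : f j = 0
      · filter_upwards [rep_zero (𝒰 := 𝒰) (L := L)] with i hi _
        rw [hj]
        exact hi
      · exact Eventually.of_forall fun i h => absurd h hj
    have h2 := hW
    rw [wr_rep] at h2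
    have h3 := ev_iff.1 (oo_um (𝒰 := 𝒰) (k := k) (fun i => wr (Δ.D i) (fun j => rep (f j) i)))
    rw [ev_iff]
    filter_upwards [h1, um_ne_iff.1 h2, h3, Δ.D_ne] with i g1 g2 g3 g4 P m g5
    right
    have h4 : oo (wr (uD Δ.D) f) (⟨i, P⟩ : Om k L) = P.ord (wr (Δ.D i) (fun j => rep (f j) i)) := by
      rw [wr_rep]
      exact g3 P
    rw [h4]
    have h5 := ord_wr P g4 (fun j => rep (f j) i) m (fun j => by
      rcases g5 j with h | h
      · exact Or.inl (g1 j h)
      · exact Or.inr h) g2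
    have h6 : -(((n ^ 2 : ℕ) : ℤ) * |vo P (Δ.D i)|) ≤ tri n * vo P (Δ.D i) := by
      have h7 : tri n * |vo P (Δ.D i)| ≤ ((n ^ 2 : ℕ) : ℤ) * |vo P (Δ.D i)| :=
        mul_le_mul_of_nonneg_right (tri_le n) (abs_nonneg _)
      have h8 : -(tri n * |vo P (Δ.D i)|) ≤ tri n * vo P (Δ.D i) := by
        rw [← mul_neg]
        exact mul_le_mul_of_nonneg_left (neg_abs_le _) (tri_nonneg n)
      linarith
    show (n : ℤ) * m - ((n ^ 2 : ℕ) : ℤ) * |vo P (Δ.D i)| ≤ _
    linarith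

end Pool.Agent.Y852.FG
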